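import Pool.Agent.Work.MP_b730b2_lc.FO

namespace Pool.Agent.Work.MP_b730b2_lc.Old.BoundedDegree

open Pool.Agent.Work.MP_b730b2_lc

/-- On every class of finite coloured graphs of tree-width at most `k` and degree at most `Δ`,
each order-invariant first-order sentence is equivalent to an order-free one. -/
theorem result (k c Δ : ℕ) (𝒞 : ∀ V : Type, (gl c).Structure V → Prop)
    (h𝒞 : ∀ V S, 𝒞 V S → Finite V ∧ IsGraph S ∧ TwLe k S ∧ DegLe Δ S)
    (φ : ((gl c).sum FirstOrder.Language.order).Sentence)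
    (hφ : ∀ V S, 𝒞 V S → ∀ o₁ o₂ : LinearOrder V, Holds φ S o₁ ↔ Holds φ S o₂) :
    ∃ ψ : (gl c).Sentence, ∀ V S, 𝒞 V S → ∀ o : LinearOrder V,
      (Holds φ S o ↔ @FirstOrder.Language.Sentence.Realize (gl c) V S ψ) :=
  main k c Δ 𝒞 h𝒞 φ hφ

end Pool.Agent.Work.MP_b730b2_lc.Old.BoundedDegree
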